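import Pool.Agent.H68Z.Tak.Pos

set_option autoImplicit false

open Set MeasureTheory

namespace Pool.Agent.Results.MP_f54a22_an.AllEvenPositive

open Pool.Agent.H68Z.Tak

/-- For every `n ≥ 1` the set of levels `y` in `[0, 2/3]` whose level set has exactly `2 n` points
contains a Borel set of positive Lebesgue measure. -/
theorem result (n : ℕ) (hn : 1 ≤ n) :
    ∃ A : Set ℝ, MeasurableSet A ∧ 0 < volume A ∧
      A ⊆ {y | y ∈ Icc (0 : ℝ) (2 / 3) ∧ (L y).encard = ((2 * n : ℕ) : ℕ∞)} := by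
  obtain ⟨A, h1, h2, h3⟩ := pos_all n
  refine ⟨A, h1, h2, fun y hy => ?_⟩
  obtain ⟨e1, -, -, e4⟩ := h3 y hy
  have e5 : (L y).encard = ((2 * n : ℕ) : ℕ∞) := by
    rw [← Lam_zero]
    push_cast
    exact e4
  refine ⟨⟨by linarith, ?_⟩, e5⟩
  have e6 : (L y).Nonempty := by
    rw [← encard_pos, e5]
    exact_mod_cast (by omega : 0 < 2 * n)
  obtain ⟨x, -, hx⟩ := e6
  rw [← hx]
  exact T_le x

end Pool.Agent.Results.MP_f54a22_an.AllEvenPositive
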